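import Pool.Agent.Lib.MP_08bba9_an.Conv
import Pool.Agent.Lib.MP_08bba9_an.Cyc
import Pool.Agent.Lib.MP_08bba9_an.Grp
import Pool.Agent.Lib.MP_08bba9_an.StmtIff

namespace Pool.Agent.Lib.MP_08bba9_an.Old.CrossedCcc

open Pool.Agent.Lib.MP_08bba9_an

/-- The trace description for C*-algebras generated by a covariant pair. -/
theorem result {Γ B A : Type*} [Group Γ] [CStarAlgebra B] [CStarAlgebra A]
    (α : Γ →* (B ≃⋆ₐ[ℂ] B)) (ι : B →⋆ₐ[ℂ] A) (u : Γ →* unitary A)
    (cov : ∀ g b, (u g : A) * ι b * star (u g : A) = ι (α g b))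
    (dense : Dense (Submodule.span ℂ {x | ∃ b g, x = ι b * u g} : Set A))
    (amen : St.IsAmenable B)
    (tw : ∀ g f, St.IsTwistedTrace (α g) f → (g = 1 → f 1 = 0) → f = 0)
    (ccc : CommutingCyclicConjugates Γ) : St.TraceDescription A := by
  rw [st_traceDescription_iff]
  let v := (unitary A).subtype.comp u
  let D := ι.toAlgHom.range
  have e : ∀ g, star (v g) = v g⁻¹ := fun g => by
    simp [v, ← Unitary.star_eq_inv]
  have hD : ∀ g, ∀ d ∈ D, v g⁻¹ * d * v g ∈ D := by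
    rintro g _ ⟨b, rfl⟩
    exact ⟨α g⁻¹ b, (cov g⁻¹ b).symm.trans (congrArg _ ((e _).trans (by rw [inv_inv])))⟩
  have hd : Dense (Submodule.span ℂ {x | ∃ g, Gr v D g x} : Set A) :=
    dense.mono (Submodule.span_mono (by
      rintro _ ⟨b, g, rfl⟩
      exact ⟨g, _, hD g _ ⟨b, rfl⟩, by rw [mul_assoc, u_inv]; rfl⟩))
  obtain ⟨τ, h1, h2, h3, h4⟩ := ex_trace hD hd fun f hf h0 => by
    refine ContinuousLinearMap.ext_on dense ?_
    rintro _ ⟨b, g, rfl⟩
    let j : B →L[ℂ] A := LinearMap.mkContinuous ι.toAlgHom.toLinearMap 1 fun x => by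
      simpa using NonUnitalStarAlgHom.norm_apply_le ι x
    refine DFunLike.congr_fun (tw g (f ∘L (ContinuousLinearMap.mul ℂ A).flip (v g) ∘L j)
      (fun a b => ?_) ?_) b
    · change f (ι (a * b) * v g) = f (ι (b * α g a) * v g)
      rw [map_mul ι, map_mul ι, ← cov, mul_assoc, hf (ι a) ⟨a, rfl⟩]
      change _ = f (ι b * (v g * ι a * star (v g)) * v g)
      simp only [e, mul_assoc, ← map_mul v, inv_mul_cancel, map_one, mul_one]
    · rintro rfl
      simpa [j] using h0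
  refine trace_desc τ h1 h3 (fun f hf => h4 f fun d _ x => hf d x) (fun _ => cob_cob)
    fun n => hh_of_list fun C Φ hΦ => ?_
  obtain ⟨C', Ψ, k1, k2, k3⟩ := hΦ.bal amen ι.toAlgHom (NonUnitalStarAlgHom.norm_apply_le ι)
  simpa using k2.add (k1.grp hD h4 ccc (fun g => by
    cases subsingleton_or_nontrivial A
    · simp [Subsingleton.elim (v g) 0]
    · exact (CStarRing.norm_coe_unitary _).le) hd h1 h2 k3)

end Pool.Agent.Lib.MP_08bba9_an.Old.CrossedCcc
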